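import Pool.Agent.Helper84.Kos.Goals2

set_option autoImplicit false

namespace Pool.Agent.Helper64.Kos

open Pool.Agent.Helper84.Kos

/-- conjugation by an element of the group as a ring homomorphism -/
def conjHom {G : Type} [Group G] {R : Type} [Ring R] (φ : G →* R) (g : G) : R →+* R where
  toFun x := φ g⁻¹ * x * φ g
  map_one' := by rw [mul_one, ← map_mul, inv_mul_cancel, map_one]
  map_zero' := by simp
  map_mul' x y := by
    have h : φ g * φ g⁻¹ = 1 := by rw [← map_mul, mul_inv_cancel, map_one]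
    have e : φ g⁻¹ * x * φ g * (φ g⁻¹ * y * φ g) = φ g⁻¹ * x * (φ g * φ g⁻¹) * y * φ g := by
      simp only [mul_assoc]
    rw [e, h, mul_one]
    simp only [mul_assoc]
  map_add' x y := by rw [mul_add, add_mul]

theorem conj_mem {G : Type} [Group G] {R : Type} [Ring R] [Algebra ℚ R] (φ : G →* R) (g : G)
    {w : R} (hw : w ∈ Submodule.span ℚ (LogSet φ)) :
    φ g⁻¹ * w * φ g ∈ Submodule.span ℚ (LogSet φ) := by
  induction hw using Submodule.span_induction with
  | mem l hl =>
    obtain ⟨hn, h, hh⟩ := hl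
    refine Submodule.subset_span ⟨?_, g⁻¹ * h * g, ?_⟩
    · exact hn.map (conjHom φ g)
    · have e := IsNilpotent.map_exp hn (conjHom φ g)
      have e2 : (conjHom φ g) l = φ g⁻¹ * l * φ g := rfl
      rw [e2] at e
      rw [← e, hh, map_mul, map_mul]
      rfl
  | zero => simp
  | add x y _ _ hx hy => rw [mul_add, add_mul]; exact add_mem hx hy
  | smul a x _ hx =>
    rw [mul_smul_comm, smul_mul_assoc]
    exact Submodule.smul_mem _ _ hx

theorem exp_natCast {G : Type} [Group G] {R : Type} [Ring R] [Algebra ℚ R] (φ : G →* R) {l : R}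
    (hl : IsNilpotent l) {g : G} (hg : IsNilpotent.exp l = φ g) (m : ℕ) :
    IsNilpotent.exp ((m : ℚ) • l) = φ (g ^ m) := by
  induction m with
  | zero => simp [IsNilpotent.exp_zero]
  | succ m ih =>
    have e : (((m + 1 : ℕ) : ℚ)) • l = (m : ℚ) • l + l := by
      push_cast; rw [add_smul, one_smul]
    rw [e, IsNilpotent.exp_add_of_commute ((Commute.refl l).smul_left _) (hl.smul _) hl, ih, hg,
      ← map_mul, pow_succ]

theorem exp_neg_natCast {G : Type} [Group G] {R : Type} [Ring R] [Algebra ℚ R] (φ : G →* R) {l : R}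
    (hl : IsNilpotent l) {g : G} (hg : IsNilpotent.exp l = φ g) (m : ℕ) :
    IsNilpotent.exp (-((m : ℚ) • l)) = φ (g ^ m)⁻¹ := by
  have h1 := IsNilpotent.exp_neg_mul_exp_self (hl.smul (m : ℚ))
  rw [exp_natCast φ hl hg] at h1
  have h2 : φ (g ^ m) * φ (g ^ m)⁻¹ = 1 := by rw [← map_mul, mul_inv_cancel, map_one]
  calc IsNilpotent.exp (-((m : ℚ) • l)) = IsNilpotent.exp (-((m : ℚ) • l)) * (φ (g ^ m) * φ (g ^ m)⁻¹) := by
        rw [h2, mul_one]
    _ = _ := by rw [← mul_assoc, h1, one_mul]

theorem stmtG1a (hV : StmtGV) : StmtG1a := by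
  intro G _ R _ _ φ x hx y hy
  -- the case of a logarithm on the right
  have key : ∀ l ∈ LogSet φ, ∀ w ∈ Submodule.span ℚ (LogSet φ),
      w * l - l * w ∈ Submodule.span ℚ (LogSet φ) := by
    rintro l ⟨hl, g, hg⟩ w hw
    obtain ⟨N0, hN0⟩ := hl
    set N := N0 + 2 with hN
    have hlN : l ^ N = 0 := by rw [hN, pow_add, hN0, zero_mul]
    have hl : IsNilpotent l := ⟨N, hlN⟩
    let cc : ℕ × ℕ → R := fun p => (((-1 : ℚ) ^ p.1 * (p.1.factorial : ℚ)⁻¹) * (p.2.factorial : ℚ)⁻¹) •
      (l ^ p.1 * w * l ^ p.2)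
    let P : Finset (ℕ × ℕ) := Finset.range N ×ˢ Finset.range N
    let v : ℕ → R := fun n => ∑ p ∈ P with p.1 + p.2 = n, cc p
    have hsum : ∀ m : ℕ, (∑ i ∈ Finset.range (2 * N), (m : ℚ) ^ i • v i) =
        φ (g ^ m)⁻¹ * w * φ (g ^ m) := by
      intro m
      have e1 : ∀ i ∈ Finset.range (2 * N), (m : ℚ) ^ i • v i =
          ∑ p ∈ P with p.1 + p.2 = i, (m : ℚ) ^ (p.1 + p.2) • cc p := by
        intro i _
        show (m : ℚ) ^ i • ∑ p ∈ P with p.1 + p.2 = i, cc p = _
        rw [Finset.smul_sum]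
        refine Finset.sum_congr rfl (fun p hp => ?_)
        rw [(Finset.mem_filter.1 hp).2]
      rw [Finset.sum_congr rfl e1, Finset.sum_fiberwise_of_maps_to (s := P)
        (t := Finset.range (2 * N)) (g := fun p : ℕ × ℕ => p.1 + p.2)
        (f := fun p => (m : ℚ) ^ (p.1 + p.2) • cc p)]
      · rw [← exp_natCast φ hl hg, ← exp_neg_natCast φ hl hg]
        have e2 : ((m : ℚ) • l) ^ N = 0 := by rw [smul_pow, hlN, smul_zero]
        have e3 : (-((m : ℚ) • l)) ^ N = 0 := by rw [neg_pow, e2, mul_zero]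
        rw [IsNilpotent.exp_eq_sum e2, IsNilpotent.exp_eq_sum e3, Finset.sum_mul, Finset.sum_mul]
        show ∑ p ∈ Finset.range N ×ˢ Finset.range N, _ = _
        rw [Finset.sum_product]
        refine Finset.sum_congr rfl (fun i _ => ?_)
        rw [Finset.mul_sum]
        refine Finset.sum_congr rfl (fun j _ => ?_)
        show (m : ℚ) ^ (i + j) • ((((-1 : ℚ) ^ i * (i.factorial : ℚ)⁻¹) * (j.factorial : ℚ)⁻¹) •
          (l ^ i * w * l ^ j)) = _
        have e4 : (-((m : ℚ) • l)) ^ i = ((-1 : ℚ) ^ i * (m : ℚ) ^ i) • l ^ i := by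
          have : -((m : ℚ) • l) = (-(m : ℚ)) • l := by rw [neg_smul]
          rw [this, smul_pow, neg_pow]
        rw [e4, smul_pow]
        simp only [smul_mul_assoc, mul_smul_comm, smul_smul]
        congr 1
        ring
      · intro p hp
        have := Finset.mem_product.1 hp
        rw [Finset.mem_range, Finset.mem_range] at this
        rw [Finset.mem_range]
        show p.1 + p.2 < 2 * N
        omega
    have h1 := hV R (Submodule.span ℚ (LogSet φ)) (2 * N) v (fun m => by
      rw [hsum m]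
      exact conj_mem φ (g ^ m) hw) 1 (by omega)
    have h2 : v 1 = w * l - l * w := by
      have e5 : (P.filter (fun p => p.1 + p.2 = 1)) = {(0, 1), (1, 0)} := by
        ext ⟨a, b⟩
        simp only [P, Finset.mem_filter, Finset.mem_product, Finset.mem_range, Finset.mem_insert,
          Finset.mem_singleton, Prod.mk.injEq]
        omega
      show ∑ p ∈ P with p.1 + p.2 = 1, cc p = _
      rw [e5, Finset.sum_pair (by simp)]
      simp [cc]
      abel
    rw [← h2]
    exact h1
  induction hy using Submodule.span_induction with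
  | mem l hl => exact key l hl x hx
  | zero => simp
  | add y z _ _ hy hz =>
    have e : x * (y + z) - (y + z) * x = (x * y - y * x) + (x * z - z * x) := by
      rw [mul_add, add_mul]; abel
    rw [e]; exact add_mem hy hz
  | smul a y _ hy =>
    have e : x * (a • y) - (a • y) * x = a • (x * y - y * x) := by
      rw [mul_smul_comm, smul_mul_assoc, smul_sub]
    rw [e]; exact Submodule.smul_mem _ _ hy

end Pool.Agent.Helper64.Kos
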