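import Pool.Agent.Helper84.Kos.Goals2

set_option autoImplicit false

namespace Pool.Agent.Helper64.Kos

open Pool.Agent.Helper84.Kos

theorem stmtG4 : StmtG4 := by
  classical
  intro k G _ hE hfg f hf
  obtain ⟨t, ht⟩ := hf (Multiplicative.ofAdd 1)
  obtain ⟨S, hS⟩ := (Group.fg_def.1 hfg)
  -- the correction of a generator
  let e : G → ℤ := fun s => Multiplicative.toAdd (f s)
  let c : G → G := fun z => z⁻¹ * t⁻¹ * z * t
  let x : ℕ → G → G := fun j s => c^[j] (s * t ^ (-(e s)))
  have hxs : ∀ j s, x (j + 1) s = (x j s)⁻¹ * t⁻¹ * (x j s) * t := by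
    intro j s
    show c^[j + 1] _ = _
    rw [Function.iterate_succ_apply']
  have hk : ∀ j s, x (k + j) s = 1 := by
    intro j s
    induction j with
    | zero => exact hE _ t
    | succ j ih =>
      rw [← add_assoc, hxs, ih]
      simp
  let T : Finset G := (S ×ˢ Finset.range k).image (fun p => x p.2 p.1)
  let M : Subgroup G := Subgroup.closure (T : Set G)
  have hxM : ∀ s ∈ S, ∀ j, x j s ∈ M := by
    intro s hs j
    by_cases hj : j < k
    · refine Subgroup.subset_closure ?_
      exact Finset.mem_coe.2 (Finset.mem_image.2 ⟨(s, j), Finset.mem_product.2 ⟨hs, Finset.mem_range.2 hj⟩, rfl⟩)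
    · obtain ⟨i, rfl⟩ := Nat.exists_eq_add_of_le (not_lt.1 hj)
      rw [hk]
      exact one_mem _
  have hfx : ∀ s j, f (x j s) = 1 := by
    intro s j
    induction j with
    | zero =>
      show f (s * t ^ (-(e s))) = 1
      rw [map_mul, map_zpow, ht]
      have : f s = Multiplicative.ofAdd (e s) := rfl
      rw [this, ← ofAdd_zsmul, ← ofAdd_add]
      simp
    | succ j ih =>
      rw [hxs, map_mul, map_mul, map_mul, map_inv, map_inv, ih]
      simp
  have hMker : M ≤ f.ker := by
    rw [Subgroup.closure_le]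
    intro g hg
    obtain ⟨p, -, rfl⟩ := Finset.mem_image.1 (Finset.mem_coe.1 hg)
    exact MonoidHom.mem_ker.2 (hfx _ _)
  have h3 : ∀ m ∈ M, t⁻¹ * m * t ∈ M := by
    intro m hm
    induction hm using Subgroup.closure_induction with
    | mem g hg =>
      obtain ⟨p, hp, rfl⟩ := Finset.mem_image.1 (Finset.mem_coe.1 hg)
      have hp1 := (Finset.mem_product.1 hp).1
      have e1 : t⁻¹ * x p.2 p.1 * t = x p.2 p.1 * x (p.2 + 1) p.1 := by
        rw [hxs]; group
      rw [e1]
      exact mul_mem (hxM _ hp1 _) (hxM _ hp1 _)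
    | one => simp
    | mul a b _ _ ha hb =>
      have e1 : t⁻¹ * (a * b) * t = (t⁻¹ * a * t) * (t⁻¹ * b * t) := by group
      rw [e1]; exact mul_mem ha hb
    | inv a _ ha =>
      have e1 : t⁻¹ * a⁻¹ * t = (t⁻¹ * a * t)⁻¹ := by group
      rw [e1]; exact inv_mem ha
  have h4x : ∀ s ∈ S, ∀ i j, k ≤ i + j → t * x j s * t⁻¹ ∈ M := by
    intro s hs i
    induction i with
    | zero =>
      intro j hj
      obtain ⟨l, rfl⟩ := Nat.exists_eq_add_of_le (show k ≤ j by omega)
      rw [hk]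
      simp
    | succ i ih =>
      intro j hj
      have e1 : t * x j s * t⁻¹ = x j s * (t * x (j + 1) s * t⁻¹)⁻¹ := by
        rw [hxs]; group
      rw [e1]
      exact mul_mem (hxM _ hs _) (inv_mem (ih (j + 1) (by omega)))
  have h4 : ∀ m ∈ M, t * m * t⁻¹ ∈ M := by
    intro m hm
    induction hm using Subgroup.closure_induction with
    | mem g hg =>
      obtain ⟨p, hp, rfl⟩ := Finset.mem_image.1 (Finset.mem_coe.1 hg)
      exact h4x _ (Finset.mem_product.1 hp).1 k _ (by omega)
    | one => simp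
    | mul a b _ _ ha hb =>
      have e1 : t * (a * b) * t⁻¹ = (t * a * t⁻¹) * (t * b * t⁻¹) := by group
      rw [e1]; exact mul_mem ha hb
    | inv a _ ha =>
      have e1 : t * a⁻¹ * t⁻¹ = (t * a * t⁻¹)⁻¹ := by group
      rw [e1]; exact inv_mem ha
  have hN : ∀ i : ℤ, ∀ m ∈ M, t ^ i * m * (t ^ i)⁻¹ ∈ M := by
    have h5 : ∀ i : ℕ, ∀ m ∈ M, t ^ i * m * (t ^ i)⁻¹ ∈ M := by
      intro i
      induction i with
      | zero => intro m hm; simpa using hm
      | succ i ih =>
        intro m hm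
        have e1 : t ^ (i + 1) * m * (t ^ (i + 1))⁻¹ = t ^ i * (t * m * t⁻¹) * (t ^ i)⁻¹ := by
          rw [pow_succ]; group
        rw [e1]; exact ih _ (h4 _ hm)
    have h6 : ∀ i : ℕ, ∀ m ∈ M, (t ^ i)⁻¹ * m * t ^ i ∈ M := by
      intro i
      induction i with
      | zero => intro m hm; simpa using hm
      | succ i ih =>
        intro m hm
        have e1 : (t ^ (i + 1))⁻¹ * m * t ^ (i + 1) = (t ^ i)⁻¹ * (t⁻¹ * m * t) * t ^ i := by
          rw [pow_succ']; group
        rw [e1]; exact ih _ (h3 _ hm)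
    intro i m hm
    obtain ⟨n, rfl | rfl⟩ := Int.eq_nat_or_neg i
    · simpa using h5 n m hm
    · simpa using h6 n m hm
  have hall : ∀ g : G, ∃ m ∈ M, ∃ i : ℤ, g = m * t ^ i := by
    intro g
    have hg : g ∈ Subgroup.closure (S : Set G) := by rw [hS]; trivial
    induction hg using Subgroup.closure_induction with
    | mem s hs =>
      refine ⟨x 0 s, hxM s (Finset.mem_coe.1 hs) 0, e s, ?_⟩
      show s = s * t ^ (-(e s)) * t ^ (e s)
      group
    | one => exact ⟨1, one_mem _, 0, by simp⟩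
    | mul a b _ _ ha hb =>
      obtain ⟨m, hm, i, rfl⟩ := ha
      obtain ⟨m', hm', j, rfl⟩ := hb
      refine ⟨m * (t ^ i * m' * (t ^ i)⁻¹), mul_mem hm (hN i _ hm'), i + j, ?_⟩
      rw [zpow_add]; group
    | inv a _ ha =>
      obtain ⟨m, hm, i, rfl⟩ := ha
      refine ⟨t ^ (-i) * m⁻¹ * (t ^ (-i))⁻¹, hN (-i) _ (inv_mem hm), -i, ?_⟩
      group
  have hker : f.ker = M := by
    refine le_antisymm ?_ hMker
    intro n hn
    obtain ⟨m, hm, i, rfl⟩ := hall n
    have h7 : f (m * t ^ i) = 1 := hn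
    rw [map_mul, MonoidHom.mem_ker.1 (hMker hm), one_mul, map_zpow, ht, ← ofAdd_zsmul] at h7
    have h8 : i = 0 := by
      have := congrArg Multiplicative.toAdd h7
      simpa using this
    rw [h8]; simpa using hm
  rw [hker]
  exact (Group.fg_iff_subgroup_fg M).2 ⟨T, rfl⟩

end Pool.Agent.Helper64.Kos
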